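import Pool.Agent.TH101.RG.TupMult
import Pool.Agent.H312R2.RG.A1

set_option autoImplicit false

/-! Blocks of consecutive primes inside a pattern of the range of the record gaps. -/

open Finset Filter
open Pool.Agent.H256R2.SC (ff)
open Pool.Agent.H362R2.RQ (fib)

namespace Pool.Agent.V11302.Pat

/-- the `i`-th prime -/
noncomputable def p (i : ℕ) : ℕ := Nat.nth Nat.Prime i

theorem count_next {x y : ℕ} (hx : x.Prime) (hxy : x < y)
    (h : ∀ z, x < z → z < y → ¬ z.Prime) :
    Nat.count Nat.Prime y = Nat.count Nat.Prime x + 1 := by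
  induction y, (Nat.succ_le_of_lt hxy) using Nat.le_induction with
  | base => rw [Nat.succ_eq_add_one, Nat.count_succ, if_pos hx]
  | succ z hz ih =>
    have hz' : x < z := hz
    rw [Nat.count_succ, if_neg (h z hz' (Nat.lt_succ_self z)), add_zero]
    exact ih hz' (fun w hw1 hw2 => h w hw1 (hw2.trans (Nat.lt_succ_self z)))

/-- the primes of a pattern are consecutive -/
theorem consec {K k n : ℕ} (t : Fin K → ℕ) (ht : StrictMono t) (A : Finset (Fin K))
    (hA : ∀ j, j ∈ A ↔ (n + t j).Prime) (hcard : k + 1 ≤ A.card)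
    (hpat : ∀ Q : ℕ, Q.Prime → n ≤ Q → (∃ j, Q ≤ n + t j) → ∃ l, Q = n + t l) :
    ∃ (ν : ℕ) (s : ℕ → Fin K), (∀ i < k, s i < s (i + 1)) ∧ ∀ i ≤ k, p (ν + i) = n + t (s i) := by
  classical
  have hlt : ∀ i, min i k < A.card := fun i => lt_of_le_of_lt (min_le_right i k) (by omega)
  let e := A.orderEmbOfFin rfl
  let s : ℕ → Fin K := fun i => e ⟨min i k, hlt i⟩
  have hsA : ∀ i, s i ∈ A := fun i => A.orderEmbOfFin_mem rfl _
  have hpr : ∀ i, (n + t (s i)).Prime := fun i => (hA _).1 (hsA i)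
  have hs : ∀ i < k, s i < s (i + 1) := by
    intro i hi
    apply e.strictMono
    rw [Fin.lt_def]
    show min i k < min (i + 1) k
    omega
  have hbet : ∀ i < k, ∀ j ∈ A, s i < j → j < s (i + 1) → False := by
    intro i hi j hj h1 h2
    have hr : j ∈ Set.range e := by
      rw [A.range_orderEmbOfFin rfl]
      exact hj
    obtain ⟨l, rfl⟩ := hr
    have h3 := e.lt_iff_lt.1 h1
    have h4 := e.lt_iff_lt.1 h2
    rw [Fin.lt_def] at h3 h4
    have h3' : min i k < (l : ℕ) := h3
    have h4' : (l : ℕ) < min (i + 1) k := h4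
    omega
  refine ⟨Nat.count Nat.Prime (n + t (s 0)), s, hs, ?_⟩
  have hc : ∀ i ≤ k, Nat.count Nat.Prime (n + t (s i)) =
      Nat.count Nat.Prime (n + t (s 0)) + i := by
    intro i
    induction i with
    | zero => intro _; rfl
    | succ i ih =>
      intro hi
      rw [count_next (hpr i) (by have := ht (hs i (by omega)); omega), ih (by omega)]
      · omega
      · intro z hz1 hz2 hz
        obtain ⟨l, rfl⟩ := hpat z hz (by omega) ⟨s (i + 1), hz2.le⟩
        exact hbet i (by omega) l ((hA l).2 hz) (ht.lt_iff_lt.1 (by omega))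
          (ht.lt_iff_lt.1 (by omega))
  intro i hi
  rw [p, ← hc i hi, Nat.nth_count (hpr i)]

theorem admissible {K : ℕ} (t : Fin K → ℕ) (hdiv : ∀ j, K.factorial ∣ t j) (P : ℕ)
    (hP : P.Prime) : ∃ v : ℕ, ∀ j, ¬ P ∣ v + t j := by
  rcases le_or_gt P K with h | h
  · refine ⟨1, fun j hj => ?_⟩
    have h1 : P ∣ t j := ((Nat.dvd_factorial hP.pos h)).trans (hdiv j)
    have h2 : P ∣ 1 := (Nat.dvd_add_left h1).1 hj
    exact hP.one_lt.ne' (Nat.dvd_one.1 h2)
  · have : Fact P.Prime := ⟨hP⟩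
    have hns : ¬ Function.Surjective (fun j : Fin K => -(t j : ZMod P)) := by
      intro hs
      have := Fintype.card_le_of_surjective _ hs
      rw [ZMod.card, Fintype.card_fin] at this
      omega
    obtain ⟨x, hx⟩ := not_forall.1 hns
    refine ⟨x.val, fun j hj => hx ⟨j, ?_⟩⟩
    have h1 : ((x.val + t j : ℕ) : ZMod P) = 0 := (ZMod.natCast_eq_zero_iff _ _).2 hj
    rw [Nat.cast_add, ZMod.natCast_val, ZMod.cast_id', id] at h1
    exact (eq_neg_of_add_eq_zero_left h1).symm

theorem colouring {K m : ℕ} (hm : 1 ≤ m) (hmK : m ≤ K) :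
    ∃ col : Fin K → Fin m, ∀ e, K ≤ 2 * m * fib col e := by
  classical
  refine ⟨fun j => ⟨(j : ℕ) % m, Nat.mod_lt _ hm⟩, fun e => ?_⟩
  have h1 : K / m ≤ fib (fun j : Fin K => (⟨(j : ℕ) % m, Nat.mod_lt _ hm⟩ : Fin m)) e := by
    unfold fib
    have h2 : K / m ≤ ((Finset.range K).filter (fun x => x % m = e)).card := by
      have h3 : Nat.count (fun x => x ≡ (e : ℕ) [MOD m]) K =
          ((Finset.range K).filter (fun x => x % m = e)).card := by
        rw [Nat.count_eq_card_filter_range]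
        congr 1
        ext x
        simp only [mem_filter, Nat.ModEq, Nat.mod_eq_of_lt e.2]
      rw [← h3, Nat.count_modEq_card K hm]
      exact Nat.le_add_right _ _
    refine h2.trans ?_
    refine Finset.card_le_card_of_injOn (fun x => if h : x < K then (⟨x, h⟩ : Fin K) else
      ⟨0, by omega⟩) ?_ ?_
    · intro x hx
      rw [Finset.mem_coe, mem_filter, mem_range] at hx
      rw [Finset.mem_coe, mem_filter]
      simp only [hx.1, dif_pos]
      exact ⟨mem_univ _, Fin.ext hx.2⟩
    · intro x hx y hy hxy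
      rw [Finset.mem_coe, mem_filter, mem_range] at hx hy
      simp only [hx.1, hy.1, dif_pos] at hxy
      exact Fin.mk.inj_iff.1 hxy
  have h4 : 1 ≤ K / m := (Nat.one_le_div_iff hm).2 hmK
  have h5 := Nat.div_add_mod K m
  have h6 := Nat.mod_lt K (show 0 < m from hm)
  calc K = m * (K / m) + K % m := h5.symm
    _ ≤ m * (K / m) + m * (K / m) := by
        have : m ≤ m * (K / m) := Nat.le_mul_of_pos_right m h4
        omega
    _ = 2 * m * (K / m) := by ring
    _ ≤ _ := Nat.mul_le_mul_left _ h1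

/-- The block of primes `p n, …, p (n + k)` lies in `(X, 4 X]` and in the class of `a` modulo `q`, consists of
elements of a translate of the pattern `t`, there are at most `K` primes at distance at most `c f(X)` from `p n`,
and for all different `i, j ≤ J` no prime `Q` has `|j Q - i p n| ≤ c f(X)`. -/
def Good (K k J q a : ℕ) (t : Fin K → ℕ) (c X : ℝ) (n : ℕ) : Prop :=
  X < (p n : ℝ) ∧ (p (n + k) : ℝ) ≤ 4 * X ∧ (∀ i ≤ k, p (n + i) ≡ a [MOD q]) ∧
    {Q : ℕ | Q.Prime ∧ |(Q : ℝ) - p n| ≤ c * ff X}.ncard ≤ K ∧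
    (∀ i j : ℕ, 1 ≤ i → i ≤ J → 1 ≤ j → j ≤ J → i ≠ j → ∀ Q : ℕ, Q.Prime →
      c * ff X < |(j : ℝ) * Q - i * p n|) ∧
    ∃ s : ℕ → Fin K, (∀ i < k, s i < s (i + 1)) ∧ ∀ i ≤ k, p (n + i) + t (s 0) = p n + t (s i)

theorem good_finite (K k J q a : ℕ) (t : Fin K → ℕ) (c X : ℝ) :
    {n : ℕ | Good K k J q a t c X n}.Finite := by
  refine (Set.finite_Iic ⌊4 * X⌋₊).subset ?_
  rintro n ⟨-, h2, -⟩
  refine Nat.le_floor (le_trans ?_ h2)
  have h3 : n + k ≤ Nat.nth Nat.Prime (n + k) :=
    (Nat.nth_strictMono Nat.infinite_setOfPred_prime).le_apply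
  exact_mod_cast (Nat.le_add_right n k).trans h3

theorem blocks (k J q : ℕ) (hq : Squarefree q) : ∃ K : ℕ, k + 1 ≤ K ∧ ∃ c : ℝ, 0 < c ∧
    ∀ᶠ X : ℝ in atTop, ∀ (t : Fin K → ℕ) (a : ℕ), StrictMono t → (∀ j, (t j : ℝ) ≤ c * ff X) →
      (∀ j, K.factorial * q ∣ t j) → a.Coprime q →
      c * X ^ (7 / 8 : ℝ) ≤ ({n : ℕ | Good K k J q a t c X n}.ncard : ℝ) := by
  classical
  obtain ⟨η, hη, H⟩ := Pool.Agent.TH101.RG.tuple_multiples
  obtain ⟨m, hm⟩ : ∃ m : ℕ, m = ⌈((k : ℝ) + 1) / η⌉₊ + 1 := ⟨_, rfl⟩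
  have hm1 : 1 ≤ m := by omega
  have hmk : (k : ℝ) + 1 ≤ η * m := by
    have h1 : ((k : ℝ) + 1) / η ≤ m := by
      rw [hm]
      push_cast
      exact (Nat.le_ceil _).trans (by linarith)
    rw [div_le_iff₀ hη] at h1
    linarith
  obtain ⟨K, hmK, HK⟩ := H m hm1
  obtain ⟨c₁, hc₁, hev⟩ := HK (J + 1) 1 1 q hq
  obtain ⟨col, hcol⟩ := colouring hm1 hmK
  have hK0 : 0 < K := by omega
  -- the number of primes
  have key : ∀ (n : ℕ) (t : Fin K → ℕ),
      (∃ E : Finset (Fin m), η * m ≤ E.card ∧ ∀ e ∈ E, ∃ j, col j = e ∧ (n + t j).Prime) →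
      k + 1 ≤ (univ.filter (fun j : Fin K => (n + t j).Prime)).card := by
    rintro n t ⟨E, hE, hE2⟩
    have : ∀ e, ∃ j : Fin K, e ∈ E → col j = e ∧ (n + t j).Prime := by
      intro e
      by_cases he : e ∈ E
      · obtain ⟨j, hj⟩ := hE2 e he
        exact ⟨j, fun _ => hj⟩
      · exact ⟨⟨0, hK0⟩, fun h => absurd h he⟩
    choose g hg using this
    have h1 : E.card ≤ (univ.filter (fun j : Fin K => (n + t j).Prime)).card := by
      refine Finset.card_le_card_of_injOn g ?_ ?_
      · intro e he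
        rw [Finset.mem_coe, mem_filter]
        exact ⟨mem_univ _, (hg e he).2⟩
      · intro e he e' he' h
        rw [← (hg e he).1, ← (hg e' he').1, h]
    have h2 : ((k + 1 : ℕ) : ℝ) ≤ E.card := by
      push_cast
      linarith
    exact (by exact_mod_cast h2 : k + 1 ≤ E.card).trans h1
  have hkK : k + 1 ≤ K := by
    by_contra hlt
    push Not at hlt
    -- use any large X to get an instance
    obtain ⟨X, hX, hX4, hff⟩ := (hev.and ((eventually_ge_atTop (4 : ℝ)).and
      ((Real.tendsto_log_atTop.eventually_ge_atTop ((K : ℝ) * (K.factorial * q) + 1))))).exists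
    have hlog1 : 1 ≤ Real.log X := le_trans (by
      have : (0 : ℝ) ≤ (K : ℝ) * (K.factorial * q) := by positivity
      linarith) hff
    have hsq : ∀ j : Fin K, (((j : ℕ) * (K.factorial * q) : ℕ) : ℝ) ≤ Real.log X ^ 2 := by
      intro j
      have h1 : (((j : ℕ) * (K.factorial * q) : ℕ) : ℝ) ≤ (K : ℝ) * (K.factorial * q) := by
        push_cast
        exact mul_le_mul_of_nonneg_right (by exact_mod_cast j.2.le) (by positivity)
      nlinarith
    have hq0 : 0 < q := Nat.pos_of_ne_zero hq.ne_zero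
    obtain ⟨n, -, -, -, -, hE, -⟩ := hX 1 0 one_ne_zero (by simpa using hlog1) (by simp)
      (by simpa using by positivity) (fun j : Fin K => (j : ℕ) * (K.factorial * q))
      (fun i j h => Fin.ext (Nat.eq_of_mul_eq_mul_right (by positivity) h)) hsq
      (admissible _ (fun j => Dvd.intro ((j : ℕ) * q) (by ring))) 1
      (fun j => by
        show (1 + (j : ℕ) * (K.factorial * q)).Coprime q
        rw [← mul_assoc, Nat.coprime_add_mul_right_left]
        exact Nat.coprime_one_left q) col hcol ∅ (by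
          simp only [card_empty, Nat.cast_zero]; positivity)
    have h1 := key n _ hE
    have h2 := (Finset.card_le_univ (univ.filter (fun j : Fin K =>
      (n + (j : ℕ) * (K.factorial * q)).Prime)))
    rw [Fintype.card_fin] at h2
    omega
  set c : ℝ := min (c₁ / (2 * (J + 2))) (1 / K) with hc
  have hc0 : 0 < c := by positivity
  have hcc₁ : 2 * (J + 2) * c ≤ c₁ := by
    have : c ≤ c₁ / (2 * (J + 2)) := min_le_left _ _
    rw [le_div_iff₀ (by positivity)] at this
    linarith
  have hcK : c * K ≤ 1 := by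
    have : c ≤ 1 / K := min_le_right _ _
    rwa [le_div_iff₀ (by exact_mod_cast hK0)] at this
  refine ⟨K, hkK, c, hc0, ?_⟩
  filter_upwards [hev, Pool.Agent.H312R2.RG.ev_ff c₁ hc₁, eventually_ge_atTop (4 : ℝ),
    Real.tendsto_log_atTop.eventually_ge_atTop (1 : ℝ)] with X hX hffX hX4 hlog1
  obtain ⟨hf1, hf0, hf2⟩ := hffX
  intro t a htm htc htd ha
  by_contra hcon
  push Not at hcon
  rw [Set.ncard_eq_toFinset_card _ (good_finite K k J q a t c X)] at hcon
  set G := (good_finite K k J q a t c X).toFinset with hG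
  set bad : Finset ℕ := (G ×ˢ (univ : Finset (Fin K))).image (fun x => p x.1 - t x.2) with hbad
  have hbadc : (bad.card : ℝ) ≤ X ^ (7 / 8 : ℝ) := by
    have h1 : bad.card ≤ G.card * K := by
      refine Finset.card_image_le.trans ?_
      rw [card_product, card_univ, Fintype.card_fin]
    have h2 : (bad.card : ℝ) ≤ G.card * K := by exact_mod_cast h1
    have h3 : (G.card : ℝ) * K ≤ c * X ^ (7 / 8 : ℝ) * K :=
      mul_le_mul_of_nonneg_right hcon.le (Nat.cast_nonneg K)
    have h4 : c * X ^ (7 / 8 : ℝ) * K = (c * K) * X ^ (7 / 8 : ℝ) := by ring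
    have h5 : (c * K) * X ^ (7 / 8 : ℝ) ≤ 1 * X ^ (7 / 8 : ℝ) :=
      mul_le_mul_of_nonneg_right hcK (by positivity)
    linarith
  have hJ0 : (0 : ℝ) ≤ J := Nat.cast_nonneg J
  have hcf : 2 * (J + 2) * (c * ff X) ≤ c₁ * ff X := by
    have := mul_le_mul_of_nonneg_right hcc₁ hf0
    linarith
  have hcf0 : 0 ≤ c * ff X := mul_nonneg hc0.le hf0
  have htlog : ∀ j, (t j : ℝ) ≤ Real.log X ^ 2 := by
    intro j
    have h1 := htc j
    nlinarith
  obtain ⟨n, hXn, hn3, hnb, hnq, hE, hiso⟩ := hX 1 0 one_ne_zero (by simpa using hlog1) (by simp)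
    (by simp; linarith) t htm.injective htlog
    (admissible t (fun j => (Dvd.intro _ rfl).trans (htd j))) a
    (fun j => by
      obtain ⟨w, hw⟩ := (Dvd.intro_left K.factorial rfl : q ∣ K.factorial * q).trans (htd j)
      rw [hw, Nat.coprime_add_mul_left_left]
      exact ha) col hcol bad hbadc
  have hA := key n t hE
  have hiso1 : ∀ Q : ℕ, Q.Prime → |(Q : ℝ) - n| ≤ c₁ * ff X → ∃ l, Q = n + t l := by
    intro Q hQ h
    refine hiso 1 1 (by simp) (by simp) (by simp) (by simp) Q hQ ?_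
    push_cast
    rw [one_mul, one_mul, one_mul, add_zero]
    exact h
  obtain ⟨ν, s, hs, hsp⟩ := consec (n := n) t htm
    (univ.filter (fun j : Fin K => (n + t j).Prime)) (fun j => by simp) hA (by
      intro Q hQ h1 ⟨j, h2⟩
      apply hiso1 Q hQ
      have h3 : (n : ℝ) ≤ Q := by exact_mod_cast h1
      have h4 : (Q : ℝ) ≤ n + t j := by exact_mod_cast h2
      have h5 := htc j
      rw [abs_of_nonneg (by linarith)]
      nlinarith)
  have hν0 : p ν = n + t (s 0) := by simpa using hsp 0 (Nat.zero_le k)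
  have hνr : (p ν : ℝ) = n + t (s 0) := by exact_mod_cast hν0
  have ht0 := htc (s 0)
  have ht00 : (0 : ℝ) ≤ t (s 0) := Nat.cast_nonneg _
  have hgood : Good K k J q a t c X ν := by
    refine ⟨?_, ?_, ?_, ?_, ?_, s, hs, ?_⟩
    · rw [hνr]; linarith
    · have h1 : (p (ν + k) : ℝ) = n + t (s k) := by exact_mod_cast hsp k le_rfl
      rw [h1]
      have h2 := htc (s k)
      nlinarith
    · intro i hi
      rw [hsp i hi]
      have h1 : q ∣ t (s i) := (Dvd.intro_left K.factorial rfl : q ∣ K.factorial * q).trans (htd _)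
      have h2 : t (s i) ≡ 0 [MOD q] := (Nat.modEq_zero_iff_dvd).2 h1
      simpa using hnq.add h2
    · have h1 : {Q : ℕ | Q.Prime ∧ |(Q : ℝ) - p ν| ≤ c * ff X} ⊆
          ((univ : Finset (Fin K)).image (fun l => n + t l) : Finset ℕ) := by
        rintro Q ⟨hQ, hd⟩
        obtain ⟨l, hl⟩ := hiso1 Q hQ (by
          rw [hνr] at hd
          have h2 := abs_le.1 hd
          rw [abs_le]
          constructor
          · nlinarith [h2.1]
          · nlinarith [h2.2])
        rw [Finset.mem_coe, mem_image]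
        exact ⟨l, mem_univ _, hl.symm⟩
      refine (Set.ncard_le_ncard h1 (Finset.finite_toSet _)).trans ?_
      rw [Set.ncard_coe_finset]
      exact Finset.card_image_le.trans (by rw [card_univ, Fintype.card_fin])
    · intro i j hi hiJ hj hjJ hij Q hQ
      by_contra hle
      push Not at hle
      have hir : (i : ℝ) ≤ J := by exact_mod_cast hiJ
      have hjr : (j : ℝ) ≤ J := by exact_mod_cast hjJ
      have hi1 : (1 : ℝ) ≤ i := by exact_mod_cast hi
      have hj1 : (1 : ℝ) ≤ j := by exact_mod_cast hj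
      rw [hνr] at hle
      have h2 := abs_le.1 hle
      have hit : (i : ℝ) * t (s 0) ≤ J * (c * ff X) :=
        mul_le_mul hir ht0 ht00 hJ0
      have hit0 : 0 ≤ (i : ℝ) * t (s 0) := by positivity
      obtain ⟨l, hl⟩ := hiso (i : ℤ) (j : ℤ) (by simpa using hi) (by
          rw [abs_of_nonneg (by positivity)]; push_cast; linarith [show (i : ℤ) ≤ J by exact_mod_cast hiJ])
        (by simpa using hj) (by
          rw [abs_of_nonneg (by positivity)]; push_cast; linarith [show (j : ℤ) ≤ J by exact_mod_cast hjJ])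
        Q hQ (by
          push_cast
          rw [one_mul, add_zero, abs_le]
          constructor
          · nlinarith [h2.1]
          · nlinarith [h2.2])
      have hlr : (Q : ℝ) = n + t l := by exact_mod_cast hl
      rw [hlr] at h2
      have htl := htc l
      have htl0 : (0 : ℝ) ≤ t l := Nat.cast_nonneg _
      have hjt : (j : ℝ) * t l ≤ J * (c * ff X) := mul_le_mul hjr htl htl0 hJ0
      have hjt0 : 0 ≤ (j : ℝ) * t l := by positivity
      have hn0 : (0 : ℝ) < n := by linarith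
      rcases Nat.lt_or_gt_of_ne hij with h | h
      · have h3 : (i : ℝ) + 1 ≤ j := by exact_mod_cast h
        have h4 : (n : ℝ) ≤ (j - i) * n := by nlinarith
        nlinarith [h2.2]
      · have h3 : (j : ℝ) + 1 ≤ i := by exact_mod_cast h
        have h4 : (n : ℝ) ≤ (i - j) * n := by nlinarith
        nlinarith [h2.1]
    · intro i hi
      rw [hsp i hi, hν0]
      ring
  apply hnb
  rw [hbad, mem_image]
  refine ⟨(ν, s 0), ?_, ?_⟩
  · rw [mem_product]
    exact ⟨(Set.Finite.mem_toFinset _).2 hgood, mem_univ _⟩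
  · show p ν - t (s 0) = n
    rw [hν0]
    omega

end Pool.Agent.V11302.Pat
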