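import Pool.Agent.V11302.Pat.Block

set_option autoImplicit false

/-! Blocks of consecutive primes all of whose gaps are bounded multiples of one given number. -/

open Finset Filter
open Pool.Agent.H256R2.SC (ff)

namespace Pool.Agent.V11302.Pat

/-- positions with divisibilities between the differences -/
def av (m : ℕ) : ℕ → ℕ
  | 0 => 0
  | (l + 1) => av m l + m * (av m l).factorial

theorem av_lt {m : ℕ} (hm : 1 ≤ m) (l : ℕ) : av m l < av m (l + 1) := by
  show av m l < av m l + m * (av m l).factorial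
  have : 0 < m * (av m l).factorial := Nat.mul_pos hm (Nat.factorial_pos _)
  omega

theorem av_mono {m : ℕ} (hm : 1 ≤ m) : StrictMono (av m) := strictMono_nat_of_lt_succ (av_lt hm)

theorem av_dvd {m : ℕ} (hm : 1 ≤ m) {u v x y : ℕ} (huv : u < v) (hvx : v ≤ x) (hxy : x ≤ y) :
    m * (av m v - av m u) ∣ av m y - av m x := by
  have h0 := av_mono hm huv
  induction y, hxy using Nat.le_induction with
  | base => simp
  | succ y hy ih =>
    have h1 : av m x ≤ av m y := (av_mono hm).monotone hy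
    have h2 : av m (y + 1) - av m x = (av m y - av m x) + m * (av m y).factorial := by
      show av m y + m * (av m y).factorial - av m x = _
      omega
    rw [h2]
    apply Nat.dvd_add ih
    apply Nat.mul_dvd_mul_left
    apply Nat.dvd_factorial (by omega)
    have h3 : av m v ≤ av m y := (av_mono hm).monotone (hvx.trans hy)
    omega

theorem fin_le (k : ℕ) (X : ℝ) : {n : ℕ | (p (n + k) : ℝ) ≤ 4 * X}.Finite := by
  refine (Set.finite_Iic ⌊4 * X⌋₊).subset ?_
  intro n h2
  refine Nat.le_floor (le_trans ?_ h2)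
  have h3 : n + k ≤ Nat.nth Nat.Prime (n + k) :=
    (Nat.nth_strictMono Nat.infinite_setOfPred_prime).le_apply
  exact_mod_cast (Nat.le_add_right n k).trans h3

theorem Good.mono {K k J q a : ℕ} {t : Fin K → ℕ} {c c' X : ℝ} {n : ℕ} (h : Good K k J q a t c X n)
    (hcc : c' * ff X ≤ c * ff X) : Good K k J q a t c' X n := by
  obtain ⟨h1, h2, h3, h4, h5, h6⟩ := h
  refine ⟨h1, h2, h3, ?_, ?_, h6⟩
  · have hsub : {Q : ℕ | Q.Prime ∧ |(Q : ℝ) - p n| ≤ c' * ff X} ⊆
        {Q : ℕ | Q.Prime ∧ |(Q : ℝ) - p n| ≤ c * ff X} := fun Q hQ => ⟨hQ.1, hQ.2.trans hcc⟩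
    refine le_trans (Set.ncard_le_ncard hsub ?_) h4
    refine (Set.finite_Iic ⌊(p n : ℝ) + c * ff X⌋₊).subset ?_
    rintro Q ⟨-, hQ⟩
    refine Nat.le_floor ?_
    have := (abs_le.1 hQ).2
    linarith
  · intro i j hi hiJ hj hjJ hij Q hQ
    exact lt_of_le_of_lt hcc (h5 i j hi hiJ hj hjJ hij Q hQ)

/-- a large part of a finite set on which finitely many values are taken -/
theorem pigeon {α β : Type} [DecidableEq β] [Fintype β] (G : Finset α) (φ : α → β) (b : ℝ)
    (hb : b * Fintype.card β ≤ G.card) (hG : G.Nonempty) :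
    ∃ y, (G.filter (fun x => φ x = y)).Nonempty ∧ b ≤ (G.filter (fun x => φ x = y)).card := by
  classical
  by_contra hcon
  push Not at hcon
  rcases le_or_gt b 0 with hb0 | hb0
  · obtain ⟨x, hx⟩ := hG
    have h1 := hcon (φ x) ⟨x, mem_filter.2 ⟨hx, rfl⟩⟩
    have : (0 : ℝ) ≤ (G.filter (fun z => φ z = φ x)).card := Nat.cast_nonneg _
    linarith
  · have h1 : (G.card : ℝ) = ∑ y : β, ((G.filter (fun x => φ x = y)).card : ℝ) := by
      rw [← Nat.cast_sum, Finset.card_eq_sum_card_fiberwise (f := φ) (t := univ)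
        (fun x _ => mem_univ _)]
    have h2 : ∀ y : β, ((G.filter (fun x => φ x = y)).card : ℝ) < b := by
      intro y
      rcases Finset.eq_empty_or_nonempty (G.filter (fun x => φ x = y)) with h | h
      · rw [h]; simpa using hb0
      · exact hcon y h
    obtain ⟨x, hx⟩ := hG
    have h3 : ∑ y : β, ((G.filter (fun x => φ x = y)).card : ℝ) < ∑ _y : β, b :=
      Finset.sum_lt_sum_of_nonempty ⟨φ x, mem_univ _⟩ (fun y _ => h2 y)
    rw [← h1, Finset.sum_const, card_univ, nsmul_eq_mul] at h3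
    linarith

/-- blocks with the same positions in the pattern -/
theorem blocks_same (k J q : ℕ) (hq : Squarefree q) : ∃ K : ℕ, k + 1 ≤ K ∧ ∃ c : ℝ, 0 < c ∧
    ∀ᶠ X : ℝ in atTop, ∀ (t : Fin K → ℕ) (a : ℕ), StrictMono t → (∀ j, (t j : ℝ) ≤ c * ff X) →
      (∀ j, K.factorial * q ∣ t j) → a.Coprime q →
      ∃ s : ℕ → Fin K, (∀ i < k, s i < s (i + 1)) ∧
      c * X ^ (7 / 8 : ℝ) ≤ ({n : ℕ | Good K k J q a t c X n ∧
        ∀ i ≤ k, p (n + i) + t (s 0) = p n + t (s i)}.ncard : ℝ) := by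
  classical
  obtain ⟨K, hkK, c, hc, h⟩ := blocks k J q hq
  have hK0 : 0 < K := by omega
  set N : ℝ := (Fintype.card (Fin (k + 1) → Fin K) : ℝ) with hN
  have hN1 : 1 ≤ N := by
    rw [hN]
    have : Nonempty (Fin (k + 1) → Fin K) := ⟨fun _ => ⟨0, hK0⟩⟩
    exact_mod_cast Fintype.card_pos
  have hN0 : 0 < N := by linarith
  have hcN : c / N ≤ c := div_le_self hc.le hN1
  refine ⟨K, hkK, c / N, by positivity, ?_⟩
  filter_upwards [h, eventually_ge_atTop (1 : ℝ), Pool.Agent.H312R2.RG.ev_ff 1 one_pos] with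
    X hX hX1 hff
  obtain ⟨-, hf0, -⟩ := hff
  intro t a htm htc htd ha
  have hcff : c / N * ff X ≤ c * ff X := mul_le_mul_of_nonneg_right hcN hf0
  have hG := hX t a htm (fun j => (htc j).trans hcff) htd ha
  set S : Set ℕ := {n : ℕ | Good K k J q a t c X n} with hS
  have hfin : S.Finite := good_finite K k J q a t c X
  have hXp : 0 < X ^ (7 / 8 : ℝ) := by positivity
  have hs : ∀ n : ℕ, ∃ s : ℕ → Fin K, n ∈ S → (∀ i < k, s i < s (i + 1)) ∧
      ∀ i ≤ k, p (n + i) + t (s 0) = p n + t (s i) := by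
    intro n
    by_cases hn : n ∈ S
    · obtain ⟨s, h1, h2⟩ := hn.2.2.2.2.2
      exact ⟨s, fun _ => ⟨h1, h2⟩⟩
    · exact ⟨fun _ => ⟨0, hK0⟩, fun h => absurd h hn⟩
  choose s hs using hs
  rw [Set.ncard_eq_toFinset_card _ hfin] at hG
  obtain ⟨y, ⟨n₀, hn₀⟩, hy2⟩ := pigeon hfin.toFinset (fun n => fun i : Fin (k + 1) => s n i)
    (c / N * X ^ (7 / 8 : ℝ)) (by
      rw [← hN]
      have : c / N * X ^ (7 / 8 : ℝ) * N = c * X ^ (7 / 8 : ℝ) := by field_simp
      rw [this]
      exact hG) (by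
      rw [← Finset.card_pos]
      have : (0 : ℝ) < hfin.toFinset.card := lt_of_lt_of_le (by positivity) hG
      exact_mod_cast this)
  have hval : ∀ n, (fun i : Fin (k + 1) => s n i) = y → ∀ i ≤ k, s n i = s n₀ i := by
    intro n hn i hi
    have h1 := congrFun (hn.trans (mem_filter.1 hn₀).2.symm) ⟨i, by omega⟩
    exact h1
  have hn₀S : n₀ ∈ S := (Set.Finite.mem_toFinset _).1 (mem_filter.1 hn₀).1
  refine ⟨s n₀, (hs n₀ hn₀S).1, hy2.trans ?_⟩
  rw [← Set.ncard_coe_finset]
  refine Nat.cast_le.2 (Set.ncard_le_ncard ?_ ?_)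
  · intro n hn
    rw [Finset.mem_coe, mem_filter, Set.Finite.mem_toFinset] at hn
    refine ⟨Good.mono hn.1 hcff, fun i hi => ?_⟩
    have h1 := (hs n hn.1).2 i hi
    rw [hval n hn.2 0 (Nat.zero_le k), hval n hn.2 i hi] at h1
    exact h1
  · exact (good_finite K k J q a t (c / N) X).subset (fun n hn => hn.1)

/-- the gaps are `r i * t` with bounded `r i`, and `m` times every earlier difference divides every later gap -/
theorem comm (k m J q : ℕ) (hm : 1 ≤ m) (hq : Squarefree q) : ∃ R : ℕ, ∃ c : ℝ, 0 < c ∧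
    ∀ᶠ X : ℝ in atTop, ∀ t a : ℕ, 1 ≤ t → (t : ℝ) ≤ c * ff X → a.Coprime q →
    ∃ r : ℕ → ℕ, (∀ i < k, 1 ≤ r i ∧ r i ≤ R) ∧
      (∀ i j l, i < j → j ≤ l → l < k → m * ∑ e ∈ Ico i j, r e ∣ r l) ∧
      c * X ^ (7 / 8 : ℝ) ≤ ({n : ℕ | (∀ i < k, p (n + i + 1) = p (n + i) + r i * t) ∧
        X < (p n : ℝ) ∧ (p (n + k) : ℝ) ≤ 4 * X ∧ (∀ i ≤ k, p (n + i) ≡ a [MOD q]) ∧
        {Q : ℕ | Q.Prime ∧ |(Q : ℝ) - p n| ≤ c * ff X}.ncard ≤ R ∧
        ∀ i j : ℕ, 1 ≤ i → i ≤ J → 1 ≤ j → j ≤ J → i ≠ j → ∀ Q : ℕ, Q.Prime →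
          c * ff X < |(j : ℝ) * Q - i * p n|}.ncard : ℝ) := by
  obtain ⟨K, hkK, c₀, hc₀, h⟩ := blocks_same k J q hq
  have hq0 : 0 < q := Nat.pos_of_ne_zero hq.ne_zero
  have hKf : 0 < K.factorial := Nat.factorial_pos K
  obtain ⟨R, hR⟩ : ∃ R, R = K.factorial * q * av m K + K := ⟨_, rfl⟩
  have hR1 : 1 ≤ R := by omega
  have hR1' : (1 : ℝ) ≤ R := by exact_mod_cast hR1
  have hRc : c₀ / R ≤ c₀ := div_le_self hc₀.le hR1'
  refine ⟨R, c₀ / R, by positivity, ?_⟩
  filter_upwards [h, eventually_ge_atTop (1 : ℝ), Pool.Agent.H312R2.RG.ev_ff 1 one_pos] with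
    X hX hX1 hff
  obtain ⟨-, hf0, -⟩ := hff
  intro t a ht htc ha
  have hcff : c₀ / R * ff X ≤ c₀ * ff X := mul_le_mul_of_nonneg_right hRc hf0
  set T : Fin K → ℕ := fun j => K.factorial * q * av m j * t with hT
  have hTm : StrictMono T := by
    intro i j hij
    have h1 : av m i < av m j := av_mono hm hij
    show K.factorial * q * av m i * t < K.factorial * q * av m j * t
    have h2 : 0 < K.factorial * q := Nat.mul_pos hKf hq0
    exact Nat.mul_lt_mul_of_pos_right (Nat.mul_lt_mul_of_pos_left h1 h2) ht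
  have hTR : ∀ j, T j ≤ R * t := by
    intro j
    show K.factorial * q * av m j * t ≤ R * t
    refine Nat.mul_le_mul_right t ?_
    rw [hR]
    have : av m j ≤ av m K := (av_mono hm).monotone j.2.le
    exact (Nat.mul_le_mul_left _ this).trans (Nat.le_add_right _ _)
  obtain ⟨s, hs, hcard⟩ := hX T a hTm (fun j => by
      have h1 : (T j : ℝ) ≤ R * t := by exact_mod_cast hTR j
      have h2 : (R : ℝ) * t ≤ R * (c₀ / R * ff X) := mul_le_mul_of_nonneg_left htc (by positivity)
      have h3 : (R : ℝ) * (c₀ / R * ff X) = c₀ * ff X := by field_simp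
      linarith)
    (fun j => ⟨av m j * t, by show K.factorial * q * av m j * t = _; ring⟩) ha
  have hsle : ∀ i j, i ≤ j → j ≤ k → s i ≤ s j := by
    intro i j hij
    induction j, hij using Nat.le_induction with
    | base => intro _; exact le_rfl
    | succ j hj ih => intro hjk; exact (ih (by omega)).trans (hs j (by omega)).le
  set r : ℕ → ℕ := fun i => K.factorial * q * (av m (s (i + 1)) - av m (s i)) with hr
  have hsum : ∀ i j, i ≤ j → j ≤ k → ∑ e ∈ Ico i j, r e =
      K.factorial * q * (av m (s j) - av m (s i)) := by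
    intro i j hij
    induction j, hij using Nat.le_induction with
    | base => intro _; simp
    | succ j hj ih =>
      intro hjk
      rw [Finset.sum_Ico_succ_top hj, ih (by omega), hr]
      show _ + K.factorial * q * (av m (s (j + 1)) - av m (s j)) = _
      rw [← Nat.mul_add]
      congr 1
      have h1 : av m (s i) ≤ av m (s j) := (av_mono hm).monotone (hsle i j hj (by omega))
      have h2 : av m (s j) ≤ av m (s (j + 1)) :=
        (av_mono hm).monotone (hs j (by omega)).le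
      omega
  refine ⟨r, ?_, ?_, ?_⟩
  · intro i hi
    have h1 : av m (s i) < av m (s (i + 1)) := av_mono hm (hs i hi)
    have h2 : av m (s (i + 1)) ≤ av m K := (av_mono hm).monotone (s (i + 1)).2.le
    constructor
    · exact Nat.mul_pos (Nat.mul_pos hKf hq0) (by omega)
    · show K.factorial * q * (av m (s (i + 1)) - av m (s i)) ≤ R
      rw [hR]
      exact (Nat.mul_le_mul_left _ (by omega)).trans (Nat.le_add_right _ _)
  · intro i j l hij hjl hlk
    rw [hsum i j hij.le (by omega)]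
    show _ ∣ K.factorial * q * (av m (s (l + 1)) - av m (s l))
    have hsij : s i < s j := lt_of_lt_of_le (hs i (by omega)) (hsle (i + 1) j hij (by omega))
    have h1 := av_dvd hm (u := s i) (v := s j) (x := s l) (y := s (l + 1)) hsij
      (hsle j l hjl (by omega)) (hs l hlk).le
    have h2 := Nat.mul_dvd_mul_left (K.factorial * q) h1
    have h3 : m * (K.factorial * q * (av m (s j) - av m (s i))) =
        K.factorial * q * (m * (av m (s j) - av m (s i))) := by ring
    rw [h3]
    exact h2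
  · have hle : c₀ / R * X ^ (7 / 8 : ℝ) ≤ c₀ * X ^ (7 / 8 : ℝ) :=
      mul_le_mul_of_nonneg_right hRc (by positivity)
    refine (hle.trans hcard).trans ?_
    refine Nat.cast_le.2 (Set.ncard_le_ncard ?_ ?_)
    · rintro n ⟨hg, hpos⟩
      obtain ⟨h1, h2, h3, h4, h5, -⟩ := Good.mono hg hcff
      refine ⟨?_, h1, h2, h3, h4.trans (by omega), h5⟩
      intro i hi
      have e1 := hpos i hi.le
      have e2 := hpos (i + 1) hi
      have h6 : av m (s i) < av m (s (i + 1)) := av_mono hm (hs i hi)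
      have e3 : T (s (i + 1)) = T (s i) + r i * t := by
        show K.factorial * q * av m (s (i + 1)) * t = K.factorial * q * av m (s i) * t +
          K.factorial * q * (av m (s (i + 1)) - av m (s i)) * t
        rw [← Nat.add_mul, ← Nat.mul_add]
        congr 2
        omega
      have e4 : p (n + i + 1) = p (n + (i + 1)) := rfl
      omega
    · exact (fin_le k X).subset (fun n hn => hn.2.2.1)

end Pool.Agent.V11302.Pat
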