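import Pool.Agent.V11302.Pat.Comm

set_option autoImplicit false

/-! `k` consecutive gaps which are independent bounded combinations of `k` given numbers. -/

open Finset Filter
open Pool.Agent.H256R2.SC (ff)

namespace Pool.Agent.V11302.Pat

/-- the matrix of the differences of the powers of increasing nodes is nonsingular -/
theorem det_ne {k : ℕ} (M : ℕ) (hM : M ≠ 0) (s : ℕ → ℕ) (hs : ∀ i < k, s i < s (i + 1)) :
    (Matrix.of fun i j : Fin k => ((M * (s (i + 1) ^ ((j : ℕ) + 1) - s i ^ ((j : ℕ) + 1)) : ℕ) : ℤ)).det ≠ 0 := by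
  intro h0
  obtain ⟨v, hv0, hv⟩ := Matrix.exists_mulVec_eq_zero_iff.2 h0
  apply hv0
  have hmono : ∀ i j, i ≤ j → j ≤ k → s i ≤ s j := by
    intro i j hij
    induction j, hij using Nat.le_induction with
    | base => intro _; exact le_rfl
    | succ j hj ih => intro hjk; exact (ih (by omega)).trans (hs j (by omega)).le
  have hmono' : ∀ i j, i < j → j ≤ k → s i < s j := fun i j hij hjk =>
    lt_of_lt_of_le (hs i (by omega)) (hmono (i + 1) j hij hjk)
  -- the polynomial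
  set P : Polynomial ℤ := ∑ j : Fin k, Polynomial.C (v j) * Polynomial.X ^ ((j : ℕ) + 1) with hP
  have hev : ∀ x : ℤ, P.eval x = ∑ j : Fin k, v j * x ^ ((j : ℕ) + 1) := by
    intro x
    rw [hP, Polynomial.eval_finsetSum]
    exact Finset.sum_congr rfl (fun j _ => by simp)
  have hstep : ∀ i < k, P.eval ((s (i + 1) : ℕ) : ℤ) = P.eval ((s i : ℕ) : ℤ) := by
    intro i hi
    have h1 := congrFun hv ⟨i, hi⟩
    simp only [Matrix.mulVec, dotProduct, Matrix.of_apply, Pi.zero_apply] at h1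
    have h2 : ∑ j : Fin k, (((M * (s (i + 1) ^ ((j : ℕ) + 1) - s i ^ ((j : ℕ) + 1)) : ℕ) : ℤ) * v j) =
        (M : ℤ) * (P.eval ((s (i + 1) : ℕ) : ℤ) - P.eval ((s i : ℕ) : ℤ)) := by
      rw [hev, hev, ← Finset.sum_sub_distrib, Finset.mul_sum]
      refine Finset.sum_congr rfl (fun j _ => ?_)
      have h3 : s i ^ ((j : ℕ) + 1) ≤ s (i + 1) ^ ((j : ℕ) + 1) :=
        Nat.pow_le_pow_left (hs i hi).le _
      push_cast [Nat.cast_sub h3]
      ring
    rw [h2] at h1
    rcases mul_eq_zero.1 h1 with h4 | h4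
    · exact absurd (by exact_mod_cast h4) hM
    · linarith
  have hconst : ∀ i ≤ k, P.eval ((s i : ℕ) : ℤ) = P.eval ((s 0 : ℕ) : ℤ) := by
    intro i
    induction i with
    | zero => intro _; rfl
    | succ i ih => intro hi; rw [hstep i (by omega), ih (by omega)]
  have hdeg : P.natDegree ≤ k := by
    rw [hP]
    refine Polynomial.natDegree_sum_le_of_forall_le _ _ (fun j _ => ?_)
    refine (Polynomial.natDegree_C_mul_X_pow_le _ _).trans ?_
    exact j.2
  have hPc : P = Polynomial.C (P.eval ((s 0 : ℕ) : ℤ)) := by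
    refine Polynomial.eq_of_natDegree_lt_card_of_eval_eq' (s := (Finset.range (k + 1)).image
      (fun i => ((s i : ℕ) : ℤ))) _ _ ?_ ?_
    · intro x hx
      rw [mem_image] at hx
      obtain ⟨i, hi, rfl⟩ := hx
      rw [hconst i (by rw [mem_range] at hi; omega), Polynomial.eval_C]
    · rw [Finset.card_image_of_injOn, card_range, Polynomial.natDegree_C]
      · simp only [max_lt_iff]
        omega
      · intro i hi j hj hij
        rw [Finset.mem_coe, mem_range] at hi hj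
        have hij' : s i = s j := by
          have : ((s i : ℕ) : ℤ) = s j := hij
          exact_mod_cast this
        rcases lt_trichotomy i j with h | h | h
        · exact absurd hij' (hmono' i j h (by omega)).ne
        · exact h
        · exact absurd hij' (hmono' j i h (by omega)).ne'
  funext j
  have h5 : P.coeff ((j : ℕ) + 1) = v j := by
    rw [hP, Polynomial.finsetSum_coeff, Finset.sum_eq_single j]
    · simp
    · intro b _ hb
      rw [Polynomial.coeff_C_mul, Polynomial.coeff_X_pow, if_neg, mul_zero]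
      intro h
      exact hb (Fin.ext (by omega))
    · intro h
      exact absurd (mem_univ _) h
  rw [← h5, hPc, Polynomial.coeff_C, if_neg (Nat.succ_ne_zero _)]
  rfl

/-- `k` consecutive gaps are independent bounded positive combinations of `t_1, …, t_k` -/
theorem indep (k J q : ℕ) (hk : 1 ≤ k) (hq : Squarefree q) : ∃ R : ℕ, ∃ c : ℝ, 0 < c ∧
    ∀ᶠ X : ℝ in atTop, ∀ (t : Fin k → ℕ) (a : ℕ), (∀ j, 1 ≤ t j) → (∀ j, (t j : ℝ) ≤ c * ff X) →
    a.Coprime q →
    ∃ r : Fin k → Fin k → ℕ, (∀ i j, 1 ≤ r i j ∧ r i j ≤ R) ∧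
      (Matrix.of fun i j : Fin k => (r i j : ℤ)).det ≠ 0 ∧
      c * X ^ (7 / 8 : ℝ) ≤ ({n : ℕ | (∀ i : Fin k, p (n + i + 1) = p (n + i) + ∑ j, r i j * t j) ∧
        X < (p n : ℝ) ∧ (p (n + k) : ℝ) ≤ 4 * X ∧ (∀ i ≤ k, p (n + i) ≡ a [MOD q]) ∧
        {Q : ℕ | Q.Prime ∧ |(Q : ℝ) - p n| ≤ c * ff X}.ncard ≤ R ∧
        ∀ i j : ℕ, 1 ≤ i → i ≤ J → 1 ≤ j → j ≤ J → i ≠ j → ∀ Q : ℕ, Q.Prime →
          c * ff X < |(j : ℝ) * Q - i * p n|}.ncard : ℝ) := by
  obtain ⟨K, hkK, c₀, hc₀, h⟩ := blocks_same k J q hq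
  have hq0 : 0 < q := Nat.pos_of_ne_zero hq.ne_zero
  have hKf : 0 < K.factorial := Nat.factorial_pos K
  have hM0 : 0 < K.factorial * q := Nat.mul_pos hKf hq0
  obtain ⟨R, hR⟩ : ∃ R, R = K.factorial * q * K ^ k + K := ⟨_, rfl⟩
  have hR1 : 1 ≤ R := by omega
  have hR1' : (1 : ℝ) ≤ R := by exact_mod_cast hR1
  have hk1 : (1 : ℝ) ≤ k := by exact_mod_cast hk
  have hRk : (1 : ℝ) ≤ R * k := one_le_mul_of_one_le_of_one_le hR1' hk1
  have hRc : c₀ / (R * k) ≤ c₀ := div_le_self hc₀.le hRk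
  have hK1 : 1 ≤ K := by omega
  refine ⟨R, c₀ / (R * k), by positivity, ?_⟩
  filter_upwards [h, eventually_ge_atTop (1 : ℝ), Pool.Agent.H312R2.RG.ev_ff 1 one_pos] with
    X hX hX1 hff
  obtain ⟨-, hf0, -⟩ := hff
  intro t a ht htc ha
  have hcff : c₀ / (R * k) * ff X ≤ c₀ * ff X := mul_le_mul_of_nonneg_right hRc hf0
  set T : Fin K → ℕ := fun l => K.factorial * q * ∑ j : Fin k, (l : ℕ) ^ ((j : ℕ) + 1) * t j with hT
  have hTm : StrictMono T := by
    intro x y hxy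
    have hxy' : (x : ℕ) < y := hxy
    refine Nat.mul_lt_mul_of_pos_left ?_ hM0
    refine Finset.sum_lt_sum_of_nonempty ⟨⟨0, by omega⟩, mem_univ _⟩ (fun j _ => ?_)
    exact Nat.mul_lt_mul_of_pos_right (Nat.pow_lt_pow_left hxy' (Nat.succ_ne_zero _)) (ht j)
  have hTR : ∀ l, (T l : ℝ) ≤ c₀ * ff X := by
    intro l
    have h1 : T l ≤ R * ∑ j : Fin k, t j := by
      rw [Finset.mul_sum]
      show K.factorial * q * ∑ j : Fin k, (l : ℕ) ^ ((j : ℕ) + 1) * t j ≤ _
      rw [Finset.mul_sum]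
      refine Finset.sum_le_sum (fun j _ => ?_)
      rw [← mul_assoc]
      refine Nat.mul_le_mul_right _ ?_
      rw [hR]
      refine le_trans (Nat.mul_le_mul_left _ ?_) (Nat.le_add_right _ _)
      exact (Nat.pow_le_pow_left l.2.le _).trans (Nat.pow_le_pow_right hK1 j.2)
    have h2 : (T l : ℝ) ≤ R * ∑ j : Fin k, (t j : ℝ) := by exact_mod_cast h1
    have h3 : ∑ j : Fin k, (t j : ℝ) ≤ ∑ _j : Fin k, c₀ / (R * k) * ff X :=
      Finset.sum_le_sum (fun j _ => htc j)
    rw [Finset.sum_const, card_univ, Fintype.card_fin, nsmul_eq_mul] at h3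
    have h4 : (R : ℝ) * (k * (c₀ / (R * k) * ff X)) = c₀ * ff X := by
      have hR0 : (R : ℝ) ≠ 0 := by positivity
      have hk0 : (k : ℝ) ≠ 0 := by positivity
      field_simp
    calc (T l : ℝ) ≤ R * ∑ j : Fin k, (t j : ℝ) := h2
      _ ≤ R * (k * (c₀ / (R * k) * ff X)) := mul_le_mul_of_nonneg_left h3 (by positivity)
      _ = _ := h4
  obtain ⟨s, hs, hcard⟩ := hX T a hTm hTR (fun l => Dvd.intro _ rfl) ha
  refine ⟨fun i j => K.factorial * q * ((s (i + 1) : ℕ) ^ ((j : ℕ) + 1) - (s i : ℕ) ^ ((j : ℕ) + 1)),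
    ?_, ?_, ?_⟩
  · intro i j
    have h1 : ((s i : Fin K) : ℕ) < s (i + 1) := hs i i.2
    have h2 : (s i : ℕ) ^ ((j : ℕ) + 1) < (s (i + 1) : ℕ) ^ ((j : ℕ) + 1) :=
      Nat.pow_lt_pow_left h1 (Nat.succ_ne_zero _)
    constructor
    · exact Nat.mul_pos hM0 (by omega)
    · rw [hR]
      refine le_trans (Nat.mul_le_mul_left _ ?_) (Nat.le_add_right _ _)
      refine (Nat.sub_le _ _).trans ?_
      exact (Nat.pow_le_pow_left (s (i + 1)).2.le _).trans (Nat.pow_le_pow_right hK1 j.2)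
  · exact det_ne (K.factorial * q) hM0.ne' (fun i => (s i : ℕ)) (fun i hi => hs i hi)
  · have hle : c₀ / (R * k) * X ^ (7 / 8 : ℝ) ≤ c₀ * X ^ (7 / 8 : ℝ) :=
      mul_le_mul_of_nonneg_right hRc (by positivity)
    refine (hle.trans hcard).trans ?_
    refine Nat.cast_le.2 (Set.ncard_le_ncard ?_ ?_)
    · rintro n ⟨hg, hpos⟩
      obtain ⟨h1, h2, h3, h4, h5, -⟩ := Good.mono hg hcff
      refine ⟨?_, h1, h2, h3, h4.trans (by omega), h5⟩
      intro i
      have e1 := hpos i i.2.le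
      have e2 := hpos (i + 1) i.2
      have h6 : ((s i : Fin K) : ℕ) < s (i + 1) := hs i i.2
      have e3 : T (s (i + 1)) = T (s i) + ∑ j : Fin k, K.factorial * q *
          ((s (i + 1) : ℕ) ^ ((j : ℕ) + 1) - (s i : ℕ) ^ ((j : ℕ) + 1)) * t j := by
        show K.factorial * q * ∑ j : Fin k, (s (i + 1) : ℕ) ^ ((j : ℕ) + 1) * t j =
          K.factorial * q * ∑ j : Fin k, (s i : ℕ) ^ ((j : ℕ) + 1) * t j + _
        rw [Finset.mul_sum, Finset.mul_sum, ← Finset.sum_add_distrib]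
        refine Finset.sum_congr rfl (fun j _ => ?_)
        have h7 : (s i : ℕ) ^ ((j : ℕ) + 1) ≤ (s (i + 1) : ℕ) ^ ((j : ℕ) + 1) :=
          Nat.pow_le_pow_left h6.le _
        obtain ⟨w, hw⟩ := Nat.exists_eq_add_of_le h7
        rw [hw, Nat.add_sub_cancel_left]
        ring
      show p (n + (i + 1)) = p (n + i) + ∑ j : Fin k, K.factorial * q *
          ((s (i + 1) : ℕ) ^ ((j : ℕ) + 1) - (s i : ℕ) ^ ((j : ℕ) + 1)) * t j
      omega
    · exact (fin_le k X).subset (fun n hn => hn.2.2.1)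

end Pool.Agent.V11302.Pat
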